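import Mathlib

/-!
Definitions for the Condorcet domain problem.  The set `[n] = {1,…,n}` is modelled by `Fin n`,
the element `k : Fin n` standing for `k + 1`.  Words are lists of natural numbers, the letter `i`
standing for the simple transposition `s_i`.
-/

namespace Pool.Agent.MP_43f1fb_co

/-- The simple transposition `s_i` of `i` and `i + 1` (that is, of `i - 1` and `i` in `Fin n`),
for `1 ≤ i ≤ n - 1`; other letters never occur below. -/
def s (n i : ℕ) : Equiv.Perm (Fin n) :=
  if h : 1 ≤ i ∧ i < n then Equiv.swap ⟨i - 1, by omega⟩ ⟨i, h.2⟩ else 1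

/-- The product `s_{j_1} ⋯ s_{j_m}` of a word. -/
def wordProd (n : ℕ) (w : List ℕ) : Equiv.Perm (Fin n) := (w.map (s n)).prod

/-- One commutation move: swap two adjacent letters `a, b` with `|a - b| ≥ 2`. -/
def CommStep (v w : List ℕ) : Prop :=
  ∃ (l r : List ℕ) (a b : ℕ), (a + 2 ≤ b ∨ b + 2 ≤ a) ∧ v = l ++ a :: b :: r ∧ w = l ++ b :: a :: r

/-- The commutation class of a word. -/
def commClass (v : List ℕ) : Set (List ℕ) := {w | Relation.ReflTransGen CommStep v w}

/-- `Pre(C)`: the products of all initial segments of words of `C`. -/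
def Pre (n : ℕ) (C : Set (List ℕ)) : Set (Equiv.Perm (Fin n)) :=
  {x | ∃ w ∈ C, ∃ m ≤ w.length, x = wordProd n (w.take m)}

/-- `a <_x b`: in the one-line notation `(x(1),…,x(n))` the entry `a` stands to the left of `b`. -/
def Before {n : ℕ} (x : Equiv.Perm (Fin n)) (a b : Fin n) : Prop := x.symm a < x.symm b

/-- The majority relation of the uniform tally on `D`. -/
def Majority {n : ℕ} (D : Set (Equiv.Perm (Fin n))) (a b : Fin n) : Prop :=
  {x ∈ D | Before x b a}.ncard < {x ∈ D | Before x a b}.ncard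

/-- The word `1, 3, 5, …` of the odd `i ≤ n - 1`. -/
def oddWord (n : ℕ) : List ℕ := (List.range (n / 2)).map fun j => 2 * j + 1

/-- The word `2, 4, …, 2k` with `k = ⌊(n-1)/2⌋`. -/
def evenWord (n : ℕ) : List ℕ := (List.range ((n - 1) / 2)).map fun j => 2 * j + 2

/-- The word writing `c ^ p` as `2p` blocks `c_odd, c_even, …, c_odd, c_even`. -/
def powWord (n p : ℕ) : List ℕ := (List.replicate p (oddWord n ++ evenWord n)).flatten

/-- The bipartite Coxeter element `c = c_odd c_even`. -/
def cox (n : ℕ) : Equiv.Perm (Fin n) := wordProd n (oddWord n) * wordProd n (evenWord n)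

/-- `u_p = c^((p-1)/2) c_odd` for odd `p` and `c^(p/2)` for even `p`. -/
def uPerm (n p : ℕ) : Equiv.Perm (Fin n) :=
  if p % 2 = 1 then cox n ^ ((p - 1) / 2) * wordProd n (oddWord n) else cox n ^ (p / 2)

end Pool.Agent.MP_43f1fb_co
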